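import Pool.Agent.H440P.Rob2
import Pool.Agent.H440P.Fin

/-!
# The sets on which random changes of an oracle put `PP` outside the polynomial hierarchy

For a set `D` of strings the following are equivalent: `D` is not sparse; for every oracle `B`, if
the part of `B` in `D` is replaced by a random subset of `D`, then relative to the new oracle, with
probability one, some language in `PP` is not in the polynomial hierarchy, not even with polynomial
advice. If `D` is sparse then there is an oracle `B` such that after every change of `B` on `D`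
every language in `PP` is in `P` with polynomial advice.
-/

set_option autoImplicit false

namespace Pool.Agent.Results.MP_a54059_lc.NonSparseModifications

open Pool.Agent.H249R3.Sub Pool.Agent.H620R2.Gauge Pool.Agent.H943R3.PP
open Pool.Agent.H628R3.RO (randomOracle)

theorem result (D : Set (List Bool)) :
    (¬ Sparse D ↔ ∀ B : Oracle, ∀ᵐ R ∂randomOracle, ∃ L : Set (List Bool),
      IsPP (patch D R B) L ∧ ¬ IsPHpoly (patch D R B) L) ∧
    (Sparse D → ∃ B : Oracle, ∀ (R : Oracle) (L : Set (List Bool)),
      IsPP (patch D R B) L → WithAdvice (IsP (patch D R B)) L) := by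
  refine ⟨⟨fun hD B => ?_, fun h hD => ?_⟩, fun hD => ?_⟩
  · filter_upwards [ae_patch D B hD] with R hR
    exact ⟨_, Pool.Agent.H440P.exCyl_pp _, fun h => hR.2.2 (Pool.Agent.H440P.isPHpoly_cyl h)⟩
  · obtain ⟨B, hB⟩ := Pool.Agent.H440P.Rob.robust_pspace D hD
    obtain ⟨R, L, hL, hL2⟩ := (h B).exists
    exact hL2 (Pool.Agent.H440P.Rob.WithAdvice.mono
      (fun L hL => Pool.Agent.H440P.Rob.isPH_of_isP hL) (hB R L (isPSPACE_of_isPP hL)))
  · obtain ⟨B, hB⟩ := Pool.Agent.H440P.Rob.robust_pspace D hD
    exact ⟨B, fun R L hL => hB R L (isPSPACE_of_isPP hL)⟩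

end Pool.Agent.Results.MP_a54059_lc.NonSparseModifications
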