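import Pool.Agent.H334R5.Ct.Final

/-!
# PP and the polynomial hierarchy: refuting one threshold pattern

The theorem says that `PP ⊆ PH` if and only if, for some `PP`-hard set `A`, some relation `R(L, j)`
in the polynomial hierarchy refutes, for every list `L = x₁, …, xₘ` of polynomially many strings
which has a threshold pattern (exactly the first `i` strings are in `A`), one statement of the form:
exactly the first `j` strings of `L` are in `A`; and the same for every level.

Polynomial time is Mathlib's `Turing.TM2ComputableInPolyTime` (through `Pool.Agent.NPC.PolyTime`).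
The class `PP` (`InPPc`) is in `Pool.Agent.H578R2.Med.PP`, `PPHard` is in
`Pool.Agent.H334R5.Ct.Stmts`, `Sig` and `SigRefuter2` are in `Pool.Agent.H334R5.Ph.Defs`, and
`Pattern` is in `Pool.Agent.H334R5.Nd.Defs`.
-/

set_option autoImplicit false

namespace Pool.Agent.Results.MP_a54059_lc.RefutersPH

open Pool.Agent.NPC.Med Pool.Agent.H334R5.Ph Pool.Agent.H334R5.Ct

/-- `PP ⊆ PH` if and only if threshold patterns of some `PP`-hard set can be refuted in the
polynomial hierarchy, and `PP ⊆ Σ_{k+1}` if and only if they can be refuted in `Σ_{k+1}`. -/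
theorem result :
    ((∃ (A : Set (List Bool)) (q : Polynomial ℕ) (k : ℕ) (R : List (List Bool) → ℕ → Prop),
      PPHard A ∧ SigRefuter2 k A q R) ↔
        ∀ L : Set (List Bool), InPPc L → ∃ k, Sig k L) ∧
    ∀ k : ℕ, (∃ (A : Set (List Bool)) (q : Polynomial ℕ) (R : List (List Bool) → ℕ → Prop),
      PPHard A ∧ SigRefuter2 (k + 1) A q R) ↔
        ∀ L : Set (List Bool), InPPc L → Sig (k + 1) L :=
  pp_ph_iff

end Pool.Agent.Results.MP_a54059_lc.RefutersPH
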